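import Pool.Agent.X255.RH.Disc

/-!
# Groups of rank at most the number of archimedean places in the torus `R_{K/ℚ} (G_m)`

The problem predicts the closure of a finitely generated group `𝓛 ⊂ K ^ ×` in `(K ⊗ ℝ) ^ ×` (`𝒜 = R_{K/ℚ} (G_m)`). Let
`R_j = P_j / Q_j`, `j = 1, …, r`, be rational functions over `ℚ` which are multiplicatively independent modulo constants,
for instance `X - c_j` with different rational numbers `c_j`. For 100% of the integral polynomials `a` of degree `g`,
ordered by the maximum of the absolute values of the coefficients, and all number fields `K = ℚ(α)` with `a(α) = 0` we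
prove the expected answer for all groups `𝓛` generated by at most `r_1 + r_2` of the numbers `R_j (α)` (`r_1 + r_2` is the
number of the archimedean places of `K`), and all their subgroups: `𝓛` is discrete in `(K ⊗ ℝ) ^ ×` (so its closure is `𝓛`
and the identity component of the closure is trivial), and the generators are multiplicatively independent.

In general it is only known (Waldschmidt) that the matrix of the logarithms of the absolute values has at least one half
of the expected rank.

Proof: the determinants of the logarithms of absolute values are polynomials in the values of the functions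
`log R_j (z)` at ALL roots `z` of `a`, with fixed coefficients (which involve `π i`). We use `Pool.Agent.X255.RH` (these
values satisfy no relation of bounded complexity for 100% of the polynomials), for several systems of branches of the
logarithms on planes cut along parallel rays: for each polynomial one of them has the rays far from all roots.
-/

set_option autoImplicit false

open Polynomial Filter Topology NumberField
open scoped Classical

namespace Pool.Agent.Results.MP_7de521_nt.DiscreteAtConjugates

/-- the polynomial `a_g X ^ g + … + a_0` -/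
noncomputable def poly {g : ℕ} (a : Fin (g + 1) → ℤ) : ℤ[X] := ∑ i, C (a i) * X ^ (i : ℕ)

/-- the `a` with `|a_i| ≤ T` -/
noncomputable def box (g T : ℕ) : Finset (Fin (g + 1) → ℤ) := Fintype.piFinset fun _ => Finset.Icc (-(T : ℤ)) T

/-- No product `∏ (P_j / Q_j) ^ (m_j - n_j)`, `m ≠ n`, is constant (over the complex numbers). -/
def Independent {r : ℕ} (P Q : Fin r → ℤ[X]) : Prop :=
  ∀ (m n : Fin r → ℕ) (c : ℂ),
    ∏ j, ((P j).map (Int.castRingHom ℂ)) ^ m j * ((Q j).map (Int.castRingHom ℂ)) ^ n j =
      C c * ∏ j, ((P j).map (Int.castRingHom ℂ)) ^ n j * ((Q j).map (Int.castRingHom ℂ)) ^ m j → m = n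

/-- the image of a subgroup of `Kˣ` in `(K ⊗ ℝ)ˣ`; here `K ⊗ ℝ` is the product `mixedSpace K` of the completions `ℝ` and
`ℂ` of `K` -/
noncomputable def image (K : Type) [Field K] [NumberField K] (L : Subgroup Kˣ) :
    Subgroup (mixedEmbedding.mixedSpace K)ˣ :=
  L.map (Units.map (mixedEmbedding K).toMonoidHom)

/-- `a` has degree `g`, and for every number field `K = ℚ(α)`, `a(α) = 0`: the numbers `u_j = P_j (α) / Q_j (α)` are
defined and different from `0`, and every set `J` of at most `r_1 + r_2` of them is multiplicatively independent and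
generates a subgroup of `Kˣ` which is discrete in `(K ⊗ ℝ)ˣ`. -/
def Good {g r : ℕ} (P Q : Fin r → ℤ[X]) (a : Fin (g + 1) → ℤ) : Prop :=
  a (Fin.last g) ≠ 0 ∧ ∀ (K : Type) [Field K] [NumberField K] (α : K), IntermediateField.adjoin ℚ {α} = ⊤ →
    aeval α (poly a) = 0 → ∃ u : Fin r → Kˣ,
      (∀ j, aeval α (Q j) ≠ 0 ∧ (u j : K) = aeval α (P j) / aeval α (Q j)) ∧
      ∀ J : Finset (Fin r), J.card ≤ Fintype.card (InfinitePlace K) →
        DiscreteTopology (image K (Subgroup.closure (u '' J))) ∧
        ∀ n : Fin r → ℤ, (∀ j, j ∉ J → n j = 0) → ∏ j, u j ^ n j = 1 → n = 0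

theorem good_of {g r : ℕ} {P Q : Fin r → ℤ[X]} {a : Fin (g + 1) → ℤ} (h : ∀ J : Finset (Fin r),
    Pool.Agent.X255.RH.OKd (fun t : Fin J.card => P (J.orderEmbOfFin rfl t)) (fun t => Q (J.orderEmbOfFin rfl t)) a) :
    Good P Q a := by
  refine ⟨(h ∅).1, fun K _ _ α hα hroot => ?_⟩
  have hne : ∀ j, aeval α (P j) ≠ 0 ∧ aeval α (Q j) ≠ 0 := by
    intro j
    have hc : ({j} : Finset (Fin r)).card ≤ Fintype.card (InfinitePlace K) := by
      rw [Finset.card_singleton]
      exact Fintype.card_pos
    have h1 := (Pool.Agent.X255.RH.disc hα hroot _ _ (h {j}) hc).1 ⟨0, by simp⟩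
    have h2 : ({j} : Finset (Fin r)).orderEmbOfFin rfl ⟨0, by simp⟩ = j :=
      Finset.mem_singleton.1 (Finset.orderEmbOfFin_mem _ _ _)
    rw [h2] at h1
    exact h1
  let u : Fin r → Kˣ := fun j => Units.mk0 (aeval α (P j) / aeval α (Q j)) (div_ne_zero (hne j).1 (hne j).2)
  have hu : ∀ j, (u j : K) = aeval α (P j) / aeval α (Q j) := fun j => rfl
  refine ⟨u, fun j => ⟨(hne j).2, hu j⟩, fun J hJ => ?_⟩
  obtain ⟨ε, hε, H⟩ := (Pool.Agent.X255.RH.disc hα hroot _ _ (h J) hJ).2
  let e := J.orderEmbOfFin (rfl : J.card = J.card)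
  have hrange : u '' J = Set.range fun t => u (e t) := by
    rw [← Finset.range_orderEmbOfFin J (rfl : J.card = J.card), ← Set.range_comp]
    rfl
  constructor
  · unfold image
    rw [hrange]
    exact Pool.Agent.X255.RH.discrete_of (fun t => u (e t)) hε H
  · intro n hn hprod
    have h1 : (∏ t, (aeval α (P (e t)) / aeval α (Q (e t))) ^ n (e t)) = 1 := by
      have h2 : ∏ j, (aeval α (P j) / aeval α (Q j)) ^ n j = 1 := by
        have h3 := congrArg (Units.val) hprod
        rw [Units.val_one, Units.coe_prod] at h3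
        rw [← h3]
        refine Finset.prod_congr rfl fun j _ => ?_
        rw [Units.val_zpow_eq_zpow_val, hu]
      rw [← h2]
      have h4 : ∏ t, (aeval α (P (e t)) / aeval α (Q (e t))) ^ n (e t) =
          ∏ j ∈ Finset.univ.map e.toEmbedding, (aeval α (P j) / aeval α (Q j)) ^ n j := by
        rw [Finset.prod_map]
        rfl
      rw [h4]
      refine Finset.prod_subset (Finset.subset_univ _) fun j _ hj => ?_
      rw [hn j, zpow_zero]
      intro hjJ
      rw [← Finset.mem_coe, ← Finset.range_orderEmbOfFin J (rfl : J.card = J.card)] at hjJ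
      obtain ⟨t, ht⟩ := hjJ
      exact hj (Finset.mem_map.2 ⟨t, Finset.mem_univ _, ht⟩)
    have h5 := H (fun t => n (e t)) fun w => by
      have h6 : (∏ t, (aeval α (P (J.orderEmbOfFin rfl t)) / aeval α (Q (J.orderEmbOfFin rfl t))) ^ n (e t)) = 1 := h1
      rw [h6, map_one, Real.log_one, abs_zero]
      exact hε
    funext j
    by_cases hj : j ∈ J
    · rw [← Finset.mem_coe, ← Finset.range_orderEmbOfFin J (rfl : J.card = J.card)] at hj
      obtain ⟨t, rfl⟩ := hj
      exact congrFun h5 t
    · exact hn j hj

/-- **Theorem.** Let `g ≥ 1` and let `P_j / Q_j`, `j < r`, be multiplicatively independent modulo constants. The proportion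
of the integral polynomials of degree at most `g` with coefficients `|a_i| ≤ T` which are `Good` tends to `1` for
`T → ∞`. -/
theorem result (g r : ℕ) (hg : 0 < g) (P Q : Fin r → ℤ[X]) (hP : ∀ j, P j ≠ 0) (hQ : ∀ j, Q j ≠ 0)
    (hind : Independent P Q) :
    Tendsto (fun T : ℕ => (((box g T).filter fun a => Good P Q a).card : ℝ) / (box g T).card) atTop (𝓝 1) := by
  rw [Metric.tendsto_atTop]
  intro ε hε
  obtain ⟨k, hk⟩ := exists_nat_gt (1 / ε)
  have hk0 : (0 : ℝ) < k := lt_trans (by positivity) hk
  obtain ⟨T₀, H⟩ := Pool.Agent.X255.RH.det_sub hg P Q hP hQ hind k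
  refine ⟨T₀, fun T hT => ?_⟩
  have h1 := H T hT
  have hbox : box g T = Pool.Agent.X255.RH.bx g T := rfl
  rw [hbox]
  set Bx := Pool.Agent.X255.RH.bx g T with hBx
  have h2 : (Bx.filter fun a => ¬ Good P Q a).card ≤ (Bx.filter fun a => ¬ ∀ J : Finset (Fin r),
      Pool.Agent.X255.RH.OKd (fun t : Fin J.card => P (J.orderEmbOfFin rfl t))
        (fun t => Q (J.orderEmbOfFin rfl t)) a).card := by
    refine Finset.card_le_card fun a ha => ?_
    rw [Finset.mem_filter] at ha ⊢
    exact ⟨ha.1, fun h => ha.2 (good_of h)⟩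
  have h3 : (k : ℝ) * (Bx.filter fun a => ¬ Good P Q a).card ≤ Bx.card :=
    (mul_le_mul_of_nonneg_left (Nat.cast_le.2 h2) hk0.le).trans h1
  have hpos : (0 : ℝ) < Bx.card := by
    rw [hBx, Pool.Agent.X255.RH.bx_card]
    positivity
  have h4 : ((Bx.filter fun a => Good P Q a).card : ℝ) + (Bx.filter fun a => ¬ Good P Q a).card = Bx.card := by
    exact_mod_cast Finset.card_filter_add_card_filter_not (s := Bx) (fun a => Good P Q a)
  rw [Real.dist_eq]
  have h5 : ((Bx.filter fun a => Good P Q a).card : ℝ) / Bx.card - 1 =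
      -(((Bx.filter fun a => ¬ Good P Q a).card : ℝ) / Bx.card) := by
    rw [← h4] at hpos ⊢
    field_simp
    ring
  rw [h5, abs_neg, abs_of_nonneg (by positivity), div_lt_iff₀ hpos]
  have h6 : 1 < ε * k := by
    rw [div_lt_iff₀ hε] at hk
    linarith [mul_comm (k : ℝ) ε]
  have h7 : (Bx.card : ℝ) * 1 < Bx.card * (ε * k) := mul_lt_mul_of_pos_left h6 hpos
  have h8 : (k : ℝ) * (Bx.filter fun a => ¬ Good P Q a).card < k * (ε * Bx.card) := by
    calc (k : ℝ) * (Bx.filter fun a => ¬ Good P Q a).card ≤ Bx.card := h3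
      _ < Bx.card * (ε * k) := by linarith
      _ = k * (ε * Bx.card) := by ring
  exact lt_of_mul_lt_mul_left h8 hk0.le

end Pool.Agent.Results.MP_7de521_nt.DiscreteAtConjugates
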