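import Pool.Agent.X255.RH.Den4

/-!
# Groups of rank larger than the number of archimedean places in the torus `R_{K/ℚ} (G_m)`

The problem predicts the closure of a finitely generated group `𝓛 ⊂ K ^ ×` in `(K ⊗ ℝ) ^ ×` (`𝒜 = R_{K/ℚ} (G_m)`). Let
`R_j = P_j / Q_j`, `j = 1, …, r`, be rational functions over `ℚ` which are multiplicatively independent modulo constants,
for instance `X - c_j` with different rational numbers `c_j`, and let `𝓛` be generated by at least `r_1 + r_2 + 1` of the
numbers `R_j (α)`, `K = ℚ(α)` (`r_1 + r_2` is the number of the archimedean places of `K`). No algebraic subgroup is an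
obstruction, and the expected answer is that the closure of `𝓛` contains the identity component of `(K ⊗ ℝ) ^ ×`. We prove
for every `κ`, for 100% of the integral polynomials `a` of degree `g` with coefficients `|a_i| ≤ T` and all `α` with
`a(α) = 0`, that `𝓛` comes as near as `T ^ (-κ)` (in the sense of quotients) to every element of the identity component.

Proof. `s = r_1 + r_2` of the generators generate a lattice modulo the maximal compact subgroup, and the coordinates of one
further generator with respect to this lattice, together with angles at the complex places, are `r_1 + 2 r_2` real numbers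
(quotients of determinants of logarithms). They satisfy no linear relation over `ℤ` with coefficients up to a given power of
`T`: all these relations are polynomials with integral coefficients in finitely many fixed polynomials in the logarithms of
the numbers `R_j` of ALL conjugates of `α`, and by `Pool.Agent.X255.RH` (all conjugates, branches on cut planes) for 100%
of the polynomials `a` these combinations are not `0`, with a lower bound for the determinant. A quantitative
Kronecker theorem (`Kron.kron`, by mean values of the powers of `1 + Σ exp (2 π i (m x_i - y_i))`) gives the multiples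
which approximate.
-/

set_option autoImplicit false

open Polynomial Filter Topology NumberField
open scoped Classical

namespace Pool.Agent.Results.MP_7de521_nt.NearlyDense

/-- the polynomial `a_g X ^ g + … + a_0` -/
noncomputable def poly {g : ℕ} (a : Fin (g + 1) → ℤ) : ℤ[X] := ∑ i, C (a i) * X ^ (i : ℕ)

/-- the `a` with `|a_i| ≤ T` -/
noncomputable def box (g T : ℕ) : Finset (Fin (g + 1) → ℤ) := Fintype.piFinset fun _ => Finset.Icc (-(T : ℤ)) T

/-- No product `∏ (P_j / Q_j) ^ (m_j - n_j)`, `m ≠ n`, is constant (over the complex numbers). -/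
def Independent {r : ℕ} (P Q : Fin r → ℤ[X]) : Prop :=
  ∀ (m n : Fin r → ℕ) (c : ℂ),
    ∏ j, ((P j).map (Int.castRingHom ℂ)) ^ m j * ((Q j).map (Int.castRingHom ℂ)) ^ n j =
      C c * ∏ j, ((P j).map (Int.castRingHom ℂ)) ^ n j * ((Q j).map (Int.castRingHom ℂ)) ^ m j → m = n

/-- the image of a subgroup of `Kˣ` in `(K ⊗ ℝ)ˣ`; here `K ⊗ ℝ` is the product `mixedSpace K` of the completions `ℝ` and
`ℂ` of `K` -/
noncomputable def image (K : Type) [Field K] [NumberField K] (L : Subgroup Kˣ) :
    Subgroup (mixedEmbedding.mixedSpace K)ˣ :=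
  L.map (Units.map (mixedEmbedding K).toMonoidHom)

/-- For every `y` in the identity component of `(K ⊗ ℝ)ˣ` (positive at the real places) there is an `x` in the image of
`L` with `‖x / y - 1‖ ≤ δ` (the norm is the maximum of the absolute values of the coordinates). -/
def Fills (K : Type) [Field K] [NumberField K] (L : Subgroup Kˣ) (δ : ℝ) : Prop :=
  ∀ y : (mixedEmbedding.mixedSpace K)ˣ, (∀ w, 0 < (y : mixedEmbedding.mixedSpace K).1 w) →
    ∃ x ∈ image K L, ‖((x / y : (mixedEmbedding.mixedSpace K)ˣ) : mixedEmbedding.mixedSpace K) - 1‖ ≤ δ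

/-- `a` has degree `g`, and for every number field `K = ℚ(α)`, `a(α) = 0`: the numbers `u_j = P_j (α) / Q_j (α)` are
defined and different from `0`, and every set `J` of more than `r_1 + r_2` of them generates a group which fills the
identity component of `(K ⊗ ℝ)ˣ` up to `T ^ (-κ)`. -/
def Good {g r : ℕ} (P Q : Fin r → ℤ[X]) (κ T : ℕ) (a : Fin (g + 1) → ℤ) : Prop :=
  a (Fin.last g) ≠ 0 ∧ ∀ (K : Type) [Field K] [NumberField K] (α : K), IntermediateField.adjoin ℚ {α} = ⊤ →
    aeval α (poly a) = 0 → ∃ u : Fin r → Kˣ,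
      (∀ j, aeval α (Q j) ≠ 0 ∧ (u j : K) = aeval α (P j) / aeval α (Q j)) ∧
      ∀ J : Finset (Fin r), Fintype.card (InfinitePlace K) < J.card →
        Fills K (Subgroup.closure (u '' J)) (1 / (T : ℝ) ^ κ)

theorem good_of {g r : ℕ} {P Q : Fin r → ℤ[X]} {κ T : ℕ} {a : Fin (g + 1) → ℤ} (hT : 3 ≤ T) (h : ∀ J : Finset (Fin r),
    Pool.Agent.X255.RH.OKd (fun t : Fin J.card => P (J.orderEmbOfFin rfl t)) (fun t => Q (J.orderEmbOfFin rfl t)) a)
    (h' : Pool.Agent.X255.RH.AllG (Pool.Agent.X255.RH.OKs P Q (κ + 1)) T a) :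
    Good P Q κ T a := by
  refine ⟨(h ∅).1, fun K _ _ α hα hroot => ?_⟩
  have hne : ∀ j, aeval α (P j) ≠ 0 ∧ aeval α (Q j) ≠ 0 := by
    intro j
    have hc : ({j} : Finset (Fin r)).card ≤ Fintype.card (InfinitePlace K) := by
      rw [Finset.card_singleton]
      exact Fintype.card_pos
    have h1 := (Pool.Agent.X255.RH.disc hα hroot _ _ (h {j}) hc).1 ⟨0, by simp⟩
    have h2 : ({j} : Finset (Fin r)).orderEmbOfFin rfl ⟨0, by simp⟩ = j :=
      Finset.mem_singleton.1 (Finset.orderEmbOfFin_mem _ _ _)
    rw [h2] at h1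
    exact h1
  let u : Fin r → Kˣ := fun j => Units.mk0 (aeval α (P j) / aeval α (Q j)) (div_ne_zero (hne j).1 (hne j).2)
  have hu : ∀ j, (u j : K) = aeval α (P j) / aeval α (Q j) := fun j => rfl
  refine ⟨u, fun j => ⟨(hne j).2, hu j⟩, fun J hJ y hy => ?_⟩
  have hs1 : 1 ≤ Fintype.card (InfinitePlace K) := Fintype.card_pos
  have hJr : J.card ≤ r := by
    have := Finset.card_le_univ J
    rwa [Fintype.card_fin] at this
  let e : Fin (Fintype.card (InfinitePlace K) + 1) → Fin r := fun t => J.orderEmbOfFin rfl (Fin.castLE hJ t)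
  have he : Function.Injective e := (J.orderEmbOfFin rfl).injective.comp (Fin.castLE_injective hJ)
  have h1 := h' ⟨Fintype.card (InfinitePlace K), lt_of_lt_of_le hJ hJr⟩ hs1 e he
  obtain ⟨x, hx, hxy⟩ := Pool.Agent.X255.RH.dens_comp hα hroot _ _ hT h1 rfl (fun t => u (e t)) (fun t => hu (e t)) y hy
  refine ⟨x, ?_, hxy⟩
  unfold image
  refine Subgroup.map_mono (Subgroup.closure_mono ?_) hx
  rintro _ ⟨t, rfl⟩
  exact ⟨e t, J.orderEmbOfFin_mem rfl _, rfl⟩

/-- **Theorem.** Let `g ≥ 1` and let `P_j / Q_j`, `j < r`, be multiplicatively independent modulo constants. For every `κ`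
the proportion of the integral polynomials of degree at most `g` with coefficients `|a_i| ≤ T` which are `Good` for `κ` and
`T` tends to `1` for `T → ∞`. -/
theorem result (g r : ℕ) (hg : 0 < g) (P Q : Fin r → ℤ[X]) (hP : ∀ j, P j ≠ 0) (hQ : ∀ j, Q j ≠ 0)
    (hind : Independent P Q) (κ : ℕ) :
    Tendsto (fun T : ℕ => (((box g T).filter fun a => Good P Q κ T a).card : ℝ) / (box g T).card) atTop (𝓝 1) := by
  rw [Metric.tendsto_atTop]
  intro ε hε
  obtain ⟨k, hk⟩ := exists_nat_gt (1 / ε)
  have hk0 : (0 : ℝ) < k := lt_trans (by positivity) hk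
  obtain ⟨T₁, H⟩ := Pool.Agent.X255.RH.det_sub hg P Q hP hQ hind (2 * k)
  obtain ⟨T₂, H'⟩ := Pool.Agent.X255.RH.den_sub hg P Q hP hQ hind (κ + 1) (2 * k)
  refine ⟨max 3 (max T₁ T₂), fun T hT => ?_⟩
  have h1 := H T (((le_max_left _ _).trans (le_max_right _ _)).trans hT)
  have h1' := H' T (((le_max_right _ _).trans (le_max_right _ _)).trans hT)
  have hT3 : 3 ≤ T := (le_max_left _ _).trans hT
  have hbox : box g T = Pool.Agent.X255.RH.bx g T := rfl
  rw [hbox]
  set Bx := Pool.Agent.X255.RH.bx g T with hBx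
  have h2 : (Bx.filter fun a => ¬ Good P Q κ T a).card ≤ (Bx.filter fun a => ¬ ∀ J : Finset (Fin r),
      Pool.Agent.X255.RH.OKd (fun t : Fin J.card => P (J.orderEmbOfFin rfl t))
        (fun t => Q (J.orderEmbOfFin rfl t)) a).card +
      (Bx.filter fun a => ¬ Pool.Agent.X255.RH.AllG (Pool.Agent.X255.RH.OKs P Q (κ + 1)) T a).card := by
    refine (Finset.card_le_card fun a ha => ?_).trans (Finset.card_union_le _ _)
    rw [Finset.mem_filter] at ha
    rw [Finset.mem_union, Finset.mem_filter, Finset.mem_filter]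
    by_contra hcon
    push Not at hcon
    exact ha.2 (good_of hT3 (hcon.1 ha.1) (hcon.2 ha.1))
  have h3 : (k : ℝ) * (Bx.filter fun a => ¬ Good P Q κ T a).card ≤ Bx.card := by
    have h5 : ((Bx.filter fun a => ¬ Good P Q κ T a).card : ℝ) ≤ ((Bx.filter fun a => ¬ ∀ J : Finset (Fin r),
      Pool.Agent.X255.RH.OKd (fun t : Fin J.card => P (J.orderEmbOfFin rfl t))
        (fun t => Q (J.orderEmbOfFin rfl t)) a).card : ℝ) +
      ((Bx.filter fun a => ¬ Pool.Agent.X255.RH.AllG (Pool.Agent.X255.RH.OKs P Q (κ + 1)) T a).card : ℝ) := by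
      exact_mod_cast h2
    have h6 := mul_le_mul_of_nonneg_left h5 hk0.le
    push_cast at h1 h1'
    linarith
  have hpos : (0 : ℝ) < Bx.card := by
    rw [hBx, Pool.Agent.X255.RH.bx_card]
    positivity
  have h4 : ((Bx.filter fun a => Good P Q κ T a).card : ℝ) + (Bx.filter fun a => ¬ Good P Q κ T a).card = Bx.card := by
    exact_mod_cast Finset.card_filter_add_card_filter_not (s := Bx) (fun a => Good P Q κ T a)
  rw [Real.dist_eq]
  have h5 : ((Bx.filter fun a => Good P Q κ T a).card : ℝ) / Bx.card - 1 =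
      -(((Bx.filter fun a => ¬ Good P Q κ T a).card : ℝ) / Bx.card) := by
    rw [← h4] at hpos ⊢
    field_simp
    ring
  rw [h5, abs_neg, abs_of_nonneg (by positivity), div_lt_iff₀ hpos]
  have h6 : 1 < ε * k := by
    rw [div_lt_iff₀ hε] at hk
    linarith [mul_comm (k : ℝ) ε]
  have h7 : (Bx.card : ℝ) * 1 < Bx.card * (ε * k) := mul_lt_mul_of_pos_left h6 hpos
  have h8 : (k : ℝ) * (Bx.filter fun a => ¬ Good P Q κ T a).card < k * (ε * Bx.card) := by
    calc (k : ℝ) * (Bx.filter fun a => ¬ Good P Q κ T a).card ≤ Bx.card := h3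
      _ < Bx.card * (ε * k) := by linarith
      _ = k * (ε * Bx.card) := by ring
  exact lt_of_mul_lt_mul_left h8 hk0.le

end Pool.Agent.Results.MP_7de521_nt.NearlyDense
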