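import Pool.Agent.X255.RH.Den8

/-!
# Groups of elements of norm one: discrete or nearly dense

Let `K` be a number field of degree `d`, `𝒜 = R¹_{K/ℚ} (G_m)` the torus of the elements of norm `1`, of dimension `d - 1`.
It is simple over `ℚ` if the Galois group of the normal closure of `K` is doubly transitive, and the problem predicts that
a finitely generated group `𝓛 ⊂ 𝒜(ℚ)` is discrete in `𝒜(ℝ)` or its closure contains `𝒜(ℝ)⁰`. Let `R_j = P_j / Q_j`,
`j = 1, …, r`, be rational functions over `ℚ` which are multiplicatively independent modulo constants. For `K = ℚ(α)` put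
`u_j = R_j (α)`, `y_j = u_j ^ d / N (u_j)`, and let `𝓛` be generated by a set of the `y_j`. Let `s = r_1 + r_2` be the number
of the archimedean places of `K`. We prove for every `κ`, for 100% of the integral polynomials `a` of degree `g` with
coefficients `|a_i| ≤ T` and all `α` with `a(α) = 0`: if `𝓛` is generated by less than `s` of the `y_j`, then it is discrete
(and the `y_j` are multiplicatively independent); if it is generated by `s` or more of the `y_j`, then it comes as near as
`T ^ (-κ)` (in the sense of quotients) to every element of the identity component `𝒜(ℝ)⁰`.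

Proof. The logarithms of the absolute values of `s - 1` of the `u_j` and the vector `(1, …, 1)` are linearly independent;
the coordinates of one further `u_j` with respect to them, together with angles at the complex places, are quotients of
determinants of logarithms with a column of ones, and satisfy no linear relation over `ℤ` with coefficients up to a given
power of `T` for 100% of `a`. A quantitative Kronecker theorem shows that the products of powers of `s` of the `u_j` and of
the number `e` come near to every element of `(K ⊗ ℝ)ˣ`, up to signs at the real places; the map `u ↦ u ^ (2d) / N(u) ^ 2`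
kills the powers of `e` and these signs.
-/

set_option autoImplicit false

open Polynomial Filter Topology NumberField
open scoped Classical

namespace Pool.Agent.Results.MP_7de521_nt.NormOneDichotomy

/-- the polynomial `a_g X ^ g + … + a_0` -/
noncomputable def poly {g : ℕ} (a : Fin (g + 1) → ℤ) : ℤ[X] := ∑ i, C (a i) * X ^ (i : ℕ)

/-- the `a` with `|a_i| ≤ T` -/
noncomputable def box (g T : ℕ) : Finset (Fin (g + 1) → ℤ) := Fintype.piFinset fun _ => Finset.Icc (-(T : ℤ)) T

/-- No product `∏ (P_j / Q_j) ^ (m_j - n_j)`, `m ≠ n`, is constant (over the complex numbers). -/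
def Independent {r : ℕ} (P Q : Fin r → ℤ[X]) : Prop :=
  ∀ (m n : Fin r → ℕ) (c : ℂ),
    ∏ j, ((P j).map (Int.castRingHom ℂ)) ^ m j * ((Q j).map (Int.castRingHom ℂ)) ^ n j =
      C c * ∏ j, ((P j).map (Int.castRingHom ℂ)) ^ n j * ((Q j).map (Int.castRingHom ℂ)) ^ m j → m = n

/-- the image of a subgroup of `Kˣ` in `(K ⊗ ℝ)ˣ`; here `K ⊗ ℝ` is the product `mixedSpace K` of the completions `ℝ` and
`ℂ` of `K` -/
noncomputable def image (K : Type) [Field K] [NumberField K] (L : Subgroup Kˣ) :
    Subgroup (mixedEmbedding.mixedSpace K)ˣ :=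
  L.map (Units.map (mixedEmbedding K).toMonoidHom)

/-- the numbers `u_j = P_j (α) / Q_j (α)` are defined and different from `0` -/
def Values {K : Type} [Field K] {r : ℕ} (P Q : Fin r → ℤ[X]) (α : K) (u : Fin r → Kˣ) : Prop :=
  ∀ j, aeval α (Q j) ≠ 0 ∧ (u j : K) = aeval α (P j) / aeval α (Q j)

/-- `y_j = u_j ^ d / N (u_j)`, `d = [K : ℚ]`, and these elements have norm `1` -/
def NormOne {K : Type} [Field K] [NumberField K] {r : ℕ} (u y : Fin r → Kˣ) : Prop :=
  ∀ j, (y j : K) = (u j : K) ^ Module.finrank ℚ K / (Algebra.norm ℚ (u j : K) : K) ∧ Algebra.norm ℚ (y j : K) = 1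

/-- For every `y` in the identity component of the group of elements of norm `1` of `(K ⊗ ℝ)ˣ` (positive at the real places;
`mixedEmbedding.norm` is the absolute value of the norm) there is an `x` in the image of `L` with `‖x / y - 1‖ ≤ δ` (the
norm is the maximum of the absolute values of the coordinates). -/
def Fills (K : Type) [Field K] [NumberField K] (L : Subgroup Kˣ) (δ : ℝ) : Prop :=
  ∀ y : (mixedEmbedding.mixedSpace K)ˣ, (∀ w, 0 < (y : mixedEmbedding.mixedSpace K).1 w) →
    mixedEmbedding.norm (y : mixedEmbedding.mixedSpace K) = 1 →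
    ∃ x ∈ image K L, ‖((x / y : (mixedEmbedding.mixedSpace K)ˣ) : mixedEmbedding.mixedSpace K) - 1‖ ≤ δ

/-- the `y_j`, `j ∈ J`, are multiplicatively independent and generate a subgroup which is discrete in `(K ⊗ ℝ)ˣ` -/
def Free {K : Type} [Field K] [NumberField K] {r : ℕ} (y : Fin r → Kˣ) (J : Finset (Fin r)) : Prop :=
  DiscreteTopology (image K (Subgroup.closure (y '' J))) ∧
    ∀ n : Fin r → ℤ, (∀ j, j ∉ J → n j = 0) → ∏ j, y j ^ n j = 1 → n = 0

/-- `a` has degree `g`, and for every number field `K = ℚ(α)`, `a(α) = 0`, with `s = r_1 + r_2` archimedean places: the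
numbers `u_j = P_j (α) / Q_j (α)` are defined and different from `0`, `y_j = u_j ^ d / N (u_j)` has norm `1`, `d = [K : ℚ]`,
every set of less than `s` of the `y_j` is multiplicatively independent and generates a discrete group, and every set of
`s` or more of the `y_j` generates a group which fills the identity component of the group of elements of norm `1` of
`(K ⊗ ℝ)ˣ` up to `T ^ (-κ)`. -/
def Good {g r : ℕ} (P Q : Fin r → ℤ[X]) (κ T : ℕ) (a : Fin (g + 1) → ℤ) : Prop :=
  a (Fin.last g) ≠ 0 ∧ ∀ (K : Type) [Field K] [NumberField K] (α : K), IntermediateField.adjoin ℚ {α} = ⊤ →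
    aeval α (poly a) = 0 → ∃ u y : Fin r → Kˣ, Values P Q α u ∧ NormOne u y ∧
      ∀ J : Finset (Fin r), (J.card < Fintype.card (InfinitePlace K) → Free y J) ∧
        (Fintype.card (InfinitePlace K) ≤ J.card → Fills K (Subgroup.closure (y '' J)) (1 / (T : ℝ) ^ κ))

/-- fewer than `s` elements -/
theorem free_of {g r : ℕ} {P Q : Fin r → ℤ[X]} {a : Fin (g + 1) → ℤ}
    (h : ∀ J : Finset (Fin r),
    Pool.Agent.X255.RH.OKn (fun t : Fin J.card => P (J.orderEmbOfFin rfl t)) (fun t => Q (J.orderEmbOfFin rfl t)) a)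
    {K : Type} [Field K] [NumberField K] {α : K} (hα : IntermediateField.adjoin ℚ {α} = ⊤) (hroot : aeval α (poly a) = 0)
    (u y : Fin r → Kˣ) (hu : ∀ j, (u j : K) = aeval α (P j) / aeval α (Q j))
    (hy : ∀ j, (y j : K) = (u j : K) ^ Module.finrank ℚ K / (Algebra.norm ℚ (u j : K) : K))
    {J : Finset (Fin r)} (hJ : J.card < Fintype.card (InfinitePlace K)) : Free y J := by
  have hd : 1 ≤ Module.finrank ℚ K := Module.finrank_pos
  have hN : ∀ j, Algebra.norm ℚ (u j : K) ≠ 0 := fun j => Algebra.norm_ne_zero_iff.2 (u j).ne_zero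
  let e := J.orderEmbOfFin (rfl : J.card = J.card)
  obtain ⟨ε, hε, H⟩ := (Pool.Agent.X255.RH.disc1 hα hroot _ _ (h J) hJ (Module.finrank ℚ K) hd
    (fun t => Algebra.norm ℚ (u (e t) : K)) fun t => hN _).2
  have H' : ∀ n : Fin J.card → ℤ, (∀ w : InfinitePlace K, |Real.log (w (∏ t, (y (e t) : K) ^ n t))| < ε) → n = 0 := by
    intro n hn
    refine H n fun w => ?_
    have h1 := hn w
    have h2 : ∀ t, (y (e t) : K) = (aeval α (P (e t)) / aeval α (Q (e t))) ^ Module.finrank ℚ K /
        (Algebra.norm ℚ (u (e t) : K) : K) := fun t => by rw [hy, hu]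
    simp only [h2] at h1
    exact h1
  have hrange : y '' J = Set.range fun t => y (e t) := by
    rw [← Finset.range_orderEmbOfFin J (rfl : J.card = J.card), ← Set.range_comp]
    rfl
  constructor
  · unfold image
    rw [hrange]
    exact Pool.Agent.X255.RH.discrete_of (fun t => y (e t)) hε H'
  · intro n hn hprod
    have h2 : ∏ j, (y j : K) ^ n j = 1 := by
      have h3 := congrArg (Units.val) hprod
      rw [Units.val_one, Units.coe_prod] at h3
      rw [← h3]
      refine Finset.prod_congr rfl fun j _ => ?_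
      rw [Units.val_zpow_eq_zpow_val]
    have h1 : (∏ t, (y (e t) : K) ^ n (e t)) = 1 := by
      rw [← h2]
      have h4 : ∏ t, (y (e t) : K) ^ n (e t) = ∏ j ∈ Finset.univ.map e.toEmbedding, (y j : K) ^ n j := by
        rw [Finset.prod_map]
        rfl
      rw [h4]
      refine Finset.prod_subset (Finset.subset_univ _) fun j _ hj => ?_
      rw [hn j, zpow_zero]
      intro hjJ
      rw [← Finset.mem_coe, ← Finset.range_orderEmbOfFin J (rfl : J.card = J.card)] at hjJ
      obtain ⟨t, ht⟩ := hjJ
      exact hj (Finset.mem_map.2 ⟨t, Finset.mem_univ _, ht⟩)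
    have h5 := H' (fun t => n (e t)) fun w => by
      rw [h1, map_one, Real.log_one, abs_zero]
      exact hε
    funext j
    by_cases hj : j ∈ J
    · rw [← Finset.mem_coe, ← Finset.range_orderEmbOfFin J (rfl : J.card = J.card)] at hj
      obtain ⟨t, rfl⟩ := hj
      exact congrFun h5 t
    · exact hn j hj

theorem good_of {g r : ℕ} {P Q : Fin r → ℤ[X]} {κ T : ℕ} {a : Fin (g + 1) → ℤ} (hT : 16 * r ≤ T)
    (h : ∀ J : Finset (Fin r),
    Pool.Agent.X255.RH.OKd (fun t : Fin J.card => P (J.orderEmbOfFin rfl t)) (fun t => Q (J.orderEmbOfFin rfl t)) a)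
    (hn : ∀ J : Finset (Fin r),
    Pool.Agent.X255.RH.OKn (fun t : Fin J.card => P (J.orderEmbOfFin rfl t)) (fun t => Q (J.orderEmbOfFin rfl t)) a)
    (h' : Pool.Agent.X255.RH.AllG (Pool.Agent.X255.RH.OKs1 P Q (κ + 1)) T a) :
    Good P Q κ T a := by
  refine ⟨(h ∅).1, fun K _ _ α hα hroot => ?_⟩
  have hne : ∀ j, aeval α (P j) ≠ 0 ∧ aeval α (Q j) ≠ 0 := by
    intro j
    have hc : ({j} : Finset (Fin r)).card ≤ Fintype.card (InfinitePlace K) := by
      rw [Finset.card_singleton]
      exact Fintype.card_pos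
    have h1 := (Pool.Agent.X255.RH.disc hα hroot _ _ (h {j}) hc).1 ⟨0, by simp⟩
    have h2 : ({j} : Finset (Fin r)).orderEmbOfFin rfl ⟨0, by simp⟩ = j :=
      Finset.mem_singleton.1 (Finset.orderEmbOfFin_mem _ _ _)
    rw [h2] at h1
    exact h1
  let u : Fin r → Kˣ := fun j => Units.mk0 (aeval α (P j) / aeval α (Q j)) (div_ne_zero (hne j).1 (hne j).2)
  have hu : ∀ j, (u j : K) = aeval α (P j) / aeval α (Q j) := fun j => rfl
  have hN : ∀ j, Algebra.norm ℚ (u j : K) ≠ 0 := fun j => Algebra.norm_ne_zero_iff.2 (u j).ne_zero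
  have hN' : ∀ j, (Algebra.norm ℚ (u j : K) : K) ≠ 0 := fun j => by exact_mod_cast hN j
  have hy : ∀ j, ((Pool.Agent.X255.RH.φN K (u j) : Kˣ) : K) =
      (u j : K) ^ Module.finrank ℚ K / (Algebra.norm ℚ (u j : K) : K) := fun j => Pool.Agent.X255.RH.φN_apply (u j)
  refine ⟨u, fun j => Pool.Agent.X255.RH.φN K (u j), fun j => ⟨(hne j).2, hu j⟩, fun j => ⟨hy j, ?_⟩,
    fun J => ⟨fun hJ => free_of hn hα hroot u _ hu hy hJ, fun hJ y hy1 hy2 => ?_⟩⟩
  · have h1 : ((Pool.Agent.X255.RH.φN K (u j) : Kˣ) : K) * algebraMap ℚ K (Algebra.norm ℚ (u j : K)) =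
        (u j : K) ^ Module.finrank ℚ K := by
      rw [hy, eq_ratCast, div_mul_cancel₀ _ (hN' j)]
    have h2 := congrArg (Algebra.norm ℚ) h1
    rw [map_mul, map_pow, Algebra.norm_algebraMap] at h2
    exact mul_right_cancel₀ (pow_ne_zero _ (hN j)) (h2.trans (one_mul _).symm)
  obtain ⟨s, hs⟩ : ∃ s, Fintype.card (InfinitePlace K) = s + 1 :=
    Nat.exists_eq_succ_of_ne_zero (Fintype.card_pos (α := InfinitePlace K)).ne'
  have hJr : J.card ≤ r := by
    have := Finset.card_le_univ J
    rwa [Fintype.card_fin] at this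
  have hsJ : s + 1 ≤ J.card := by rw [← hs]; exact hJ
  have hd : 8 * Module.finrank ℚ K ≤ T := by
    have h1 : Module.finrank ℚ K ≤ 2 * (s + 1) := by
      rw [← InfinitePlace.sum_mult_eq, ← hs]
      calc ∑ w : InfinitePlace K, w.mult ≤ ∑ _w : InfinitePlace K, 2 := Finset.sum_le_sum fun w _ => by
            unfold InfinitePlace.mult
            split_ifs <;> omega
        _ = 2 * Fintype.card (InfinitePlace K) := by
            rw [Finset.sum_const, Finset.card_univ, smul_eq_mul, mul_comm]
    omega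
  let e : Fin (s + 1) → Fin r := fun t => J.orderEmbOfFin rfl (Fin.castLE hsJ t)
  have he : Function.Injective e := (J.orderEmbOfFin rfl).injective.comp (Fin.castLE_injective hsJ)
  have h1 := h' ⟨s, by omega⟩ e he
  obtain ⟨x, hx, hxy⟩ := Pool.Agent.X255.RH.dens_norm1 hα hroot _ _ hd h1 hs (fun t => u (e t)) (fun t => hu (e t)) y
    hy1 hy2
  refine ⟨x, ?_, hxy⟩
  unfold image
  refine Subgroup.map_mono (Subgroup.closure_mono ?_) hx
  rintro _ ⟨t, rfl⟩
  exact ⟨e t, J.orderEmbOfFin_mem rfl _, rfl⟩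

/-- **Theorem.** Let `g ≥ 1` and let `P_j / Q_j`, `j < r`, be multiplicatively independent modulo constants. For every `κ`
the proportion of the integral polynomials of degree at most `g` with coefficients `|a_i| ≤ T` which are `Good` for `κ` and
`T` tends to `1` for `T → ∞`. -/
theorem result (g r : ℕ) (hg : 0 < g) (P Q : Fin r → ℤ[X]) (hP : ∀ j, P j ≠ 0) (hQ : ∀ j, Q j ≠ 0)
    (hind : Independent P Q) (κ : ℕ) :
    Tendsto (fun T : ℕ => (((box g T).filter fun a => Good P Q κ T a).card : ℝ) / (box g T).card) atTop (𝓝 1) := by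
  rw [Metric.tendsto_atTop]
  intro ε hε
  obtain ⟨k, hk⟩ := exists_nat_gt (1 / ε)
  have hk0 : (0 : ℝ) < k := lt_trans (by positivity) hk
  obtain ⟨T₁, H⟩ := Pool.Agent.X255.RH.det_sub hg P Q hP hQ hind (3 * k)
  obtain ⟨T₂, H'⟩ := Pool.Agent.X255.RH.den_sub1 hg P Q hP hQ hind (κ + 1) (3 * k)
  obtain ⟨T₃, H''⟩ := Pool.Agent.X255.RH.det_sub1 hg P Q hP hQ hind (3 * k)
  refine ⟨max (16 * r) (max T₁ (max T₂ T₃)), fun T hT => ?_⟩
  have h1 := H T (((le_max_left _ _).trans (le_max_right _ _)).trans hT)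
  have h1' := H' T (((le_max_left _ _).trans ((le_max_right _ _).trans (le_max_right _ _))).trans hT)
  have h1'' := H'' T (((le_max_right _ _).trans ((le_max_right _ _).trans (le_max_right _ _))).trans hT)
  have hT3 : 16 * r ≤ T := (le_max_left _ _).trans hT
  have hbox : box g T = Pool.Agent.X255.RH.bx g T := rfl
  rw [hbox]
  set Bx := Pool.Agent.X255.RH.bx g T with hBx
  have h2 : (Bx.filter fun a => ¬ Good P Q κ T a).card ≤ (Bx.filter fun a => ¬ ∀ J : Finset (Fin r),
      Pool.Agent.X255.RH.OKd (fun t : Fin J.card => P (J.orderEmbOfFin rfl t))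
        (fun t => Q (J.orderEmbOfFin rfl t)) a).card +
      (Bx.filter fun a => ¬ Pool.Agent.X255.RH.AllG (Pool.Agent.X255.RH.OKs1 P Q (κ + 1)) T a).card +
      (Bx.filter fun a => ¬ ∀ J : Finset (Fin r), Pool.Agent.X255.RH.OKn (fun t : Fin J.card => P (J.orderEmbOfFin rfl t))
        (fun t => Q (J.orderEmbOfFin rfl t)) a).card := by
    refine (Finset.card_le_card fun a ha => ?_).trans ((Finset.card_union_le _ _).trans
      (Nat.add_le_add_right (Finset.card_union_le _ _) _))
    rw [Finset.mem_filter] at ha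
    rw [Finset.mem_union, Finset.mem_union, Finset.mem_filter, Finset.mem_filter, Finset.mem_filter]
    by_contra hcon
    simp only [not_or] at hcon
    exact ha.2 (good_of hT3 (by_contra fun h => hcon.1.1 ⟨ha.1, h⟩) (by_contra fun h => hcon.2 ⟨ha.1, h⟩)
      (by_contra fun h => hcon.1.2 ⟨ha.1, h⟩))
  have h3 : (k : ℝ) * (Bx.filter fun a => ¬ Good P Q κ T a).card ≤ Bx.card := by
    have h5 : ((Bx.filter fun a => ¬ Good P Q κ T a).card : ℝ) ≤ ((Bx.filter fun a => ¬ ∀ J : Finset (Fin r),
      Pool.Agent.X255.RH.OKd (fun t : Fin J.card => P (J.orderEmbOfFin rfl t))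
        (fun t => Q (J.orderEmbOfFin rfl t)) a).card : ℝ) +
      ((Bx.filter fun a => ¬ Pool.Agent.X255.RH.AllG (Pool.Agent.X255.RH.OKs1 P Q (κ + 1)) T a).card : ℝ) +
      ((Bx.filter fun a => ¬ ∀ J : Finset (Fin r), Pool.Agent.X255.RH.OKn (fun t : Fin J.card => P (J.orderEmbOfFin rfl t))
        (fun t => Q (J.orderEmbOfFin rfl t)) a).card : ℝ) := by
      exact_mod_cast h2
    have h6 := mul_le_mul_of_nonneg_left h5 hk0.le
    push_cast at h1 h1' h1''
    linarith
  have hpos : (0 : ℝ) < Bx.card := by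
    rw [hBx, Pool.Agent.X255.RH.bx_card]
    positivity
  have h4 : ((Bx.filter fun a => Good P Q κ T a).card : ℝ) + (Bx.filter fun a => ¬ Good P Q κ T a).card = Bx.card := by
    exact_mod_cast Finset.card_filter_add_card_filter_not (s := Bx) (fun a => Good P Q κ T a)
  rw [Real.dist_eq]
  have h5 : ((Bx.filter fun a => Good P Q κ T a).card : ℝ) / Bx.card - 1 =
      -(((Bx.filter fun a => ¬ Good P Q κ T a).card : ℝ) / Bx.card) := by
    rw [← h4] at hpos ⊢
    field_simp
    ring
  rw [h5, abs_neg, abs_of_nonneg (by positivity), div_lt_iff₀ hpos]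
  have h6 : 1 < ε * k := by
    rw [div_lt_iff₀ hε] at hk
    linarith [mul_comm (k : ℝ) ε]
  have h7 : (Bx.card : ℝ) * 1 < Bx.card * (ε * k) := mul_lt_mul_of_pos_left h6 hpos
  have h8 : (k : ℝ) * (Bx.filter fun a => ¬ Good P Q κ T a).card < k * (ε * Bx.card) := by
    calc (k : ℝ) * (Bx.filter fun a => ¬ Good P Q κ T a).card ≤ Bx.card := h3
      _ < Bx.card * (ε * k) := by linarith
      _ = k * (ε * Bx.card) := by ring
  exact lt_of_mul_lt_mul_left h8 hk0.le

end Pool.Agent.Results.MP_7de521_nt.NormOneDichotomy
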