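import Pool.Agent.X156.LD.Fin

/-!
# `p`-adic closures of the groups generated by the conjugates of a number
-/

set_option autoImplicit false
set_option linter.unusedSectionVars false

namespace Pool.Agent.Results.MP_7de521_nt.PAdicClosuresOfGaloisOrbits

open NumberField Module Pool.Agent.X156.LD Pool.Agent.X328.LP Pool.Agent.W332.SL6 Pool.Agent.W289.SL

/-- `L` has rank `ℓ`, and its closure in `(F ⊗ ℚ_p)^×` has `ℤ_p`-rank `ℓ'` -/
def HasRanks (p : ℕ) [Fact p.Prime] {F : Type} [Field F] (L : Subgroup Fˣ) (ℓ ℓ' : ℕ) : Prop :=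
  (∃ β : Fin ℓ → Fˣ, IsMaxFamily L β) ∧
    ∀ β : Fin ℓ → Fˣ, IsMaxFamily L β → finrank ℤ_[p] (padicRelations p β) + ℓ' = ℓ

/-- **`p`-adic closures of the groups generated by the conjugates of a number.**

Let `F/k` be an extension of number fields, `G = Aut(F/k)`, and `α` a nonzero element of `F` which is
a unit at all primes above `p`. Let `L` be the group generated by the `g α`, `g` in `G`, `ℓ` its rank
and `ℓ'` the `ℤ_p`-rank of its closure in `(F ⊗ ℚ_p)^×`.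

(1) If `G` is a `q`-group then `ℓ ≡ ℓ'` modulo `q [ℚ_p(ζ_q) : ℚ_p]`.

(2) Let `D` be a subgroup of `G` which fixes `α`. Then `ℓ - ℓ'` is a sum of dimensions of irreducible
representations of `G` over `ℚ_p` with several vectors fixed by `D`. -/
theorem result (p q : ℕ) [hp : Fact p.Prime] [hq : Fact q.Prime] (k F : Type) [Field k]
    [NumberField k] [Field F] [NumberField F] [Algebra k F] (α : Fˣ)
    (hα : ∀ σ : F →+* ℂ_[p], ‖σ (α : F)‖ = 1) :
    ∃ ℓ ℓ' : ℕ, HasRanks p (orbitGroup k α) ℓ ℓ' ∧ ℓ' ≤ ℓ ∧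
      (IsPGroup q (F ≃ₐ[k] F) → ∀ ζ : ℂ_[p], IsPrimitiveRoot ζ q →
        ℓ ≡ ℓ' [MOD q * (minpoly ℚ_[p] ζ).natDegree]) ∧
      ∀ D : Subgroup (F ≃ₐ[k] F), (∀ d ∈ D, d (α : F) = α) →
        ∀ M : AddSubmonoid ℕ, IrrMem ℚ_[p] D ⊥ M → ℓ - ℓ' ∈ M := by
  have hfd : FiniteDimensional k F := Module.Finite.of_restrictScalars_finite ℚ k F
  obtain ⟨L, hL⟩ := exists_iwasawaLog p
  obtain ⟨ℓ, β, hβ⟩ := exists_maxFamily p (fun g : F ≃ₐ[k] F =>
    Units.map (((g : F →+* F) : F →* F)) α)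
  have hβ' : IsMaxFamily (orbitGroup k α) β := hβ
  set δ := finrank ℚ_[p] (KO hL k α) with hδ
  have hle : δ ≤ ℓ := by
    rw [hδ, ← finrank_padicRelations hL α hα hβ']
    have h1 := Submodule.finrank_le (padicRelations p β)
    rw [Module.finrank_fintype_fun_eq_card, Fintype.card_fin] at h1
    exact h1
  refine ⟨ℓ, ℓ - δ, ⟨⟨β, hβ'⟩, fun β₁ hβ₁ => ?_⟩, Nat.sub_le _ _, ?_, ?_⟩
  · rw [finrank_padicRelations hL α hα hβ₁]
    omega
  · intro hG ζ hζ
    have h1 := orbit_pgroup hL α hα hG hζ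
    refine ((Nat.modEq_iff_dvd' (Nat.sub_le _ _)).2 ?_).symm
    have h2 : ℓ - (ℓ - δ) = δ := by omega
    rw [h2]
    exact h1
  · intro D hD M hM
    have h2 : ℓ - (ℓ - δ) = δ := by omega
    rw [h2]
    have h3 := mem_orbit hL α hα D (fun d hd => Units.ext (hD d hd)) ⊥ M hM
    have h4 : fixed (kerRepF hL k α) (⊥ : Subgroup (F ≃ₐ[k] F)) = ⊤ := by
      rw [eq_top_iff]
      intro x _ h hh
      rw [Subgroup.mem_bot] at hh
      rw [hh, map_one]
      rfl
    rw [h4, finrank_top] at h3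
    exact h3

end Pool.Agent.Results.MP_7de521_nt.PAdicClosuresOfGaloisOrbits
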